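import Pool.Agent.H85B.CoreJ

/-!
# Average case and worst case without local checking

`C`, `D`: classes of number functions with the closure properties, every predicate of `C` (of one number) is in `D`.
If every predicate of the class `D` agrees with a predicate of the class `C` (without advice) on a fraction
`1 / 2 + 2 ^ (- l n) / 2` of the words of every large length `n`, then every predicate of `D` is in `C`.

The table of `P` on the numbers below `2 ^ 2 ^ (t * J)` is encoded with the scheme `fam J 1 J (2 ^ t - 1)`; the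
approximation of the codeword gives a number `u < 2 ^ (2 * W * 2 ^ (t * J))` from which the table is decoded in `C`.
The least such number is a function of the class `D`; its bit `i` is the value of a predicate of `D` at all words of
the length `B * 2 ^ (t * J) + i`; this predicate depends only on the length, so the majority of the values of its
approximation is its value. So the least number is a function of the class `C`.
-/

set_option autoImplicit false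

namespace LSA

open LSC

/-- every predicate of the class `D` agrees with a predicate of the class `C` on a fraction of at least
`1 / 2 + 2 ^ (- l n) / 2` of the words of length `n`, for every large `n` -/
def UAvg (l : ℕ → ℕ) (C D : NClass) : Prop := ∀ P : ℕ → Prop, Pr D P →
  ∃ (Q : ℕ → Prop) (n₀ : ℕ), Pr C Q ∧
    ∀ n ≥ n₀, Adv (2 ^ n) (l n) (fun x => P (2 ^ n + x)) (fun x => Q (2 ^ n + x))

/-- the value at `y` of the message decoded with the advice `u` -/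
noncomputable def dcP (J W : ℕ) (Q : ℕ → Prop) (t u y : ℕ) : Prop :=
  (fam J 1 J (2 ^ t - 1)).dec (fun r => Q (2 ^ nJ J 1 (2 ^ t - 1) + (r + (fam J 1 J (2 ^ t - 1)).M *
    (u % 2 ^ (W * 2 ^ (t * J)))))) (u / 2 ^ (W * 2 ^ (t * J))) y

theorem two_pow_sub (t J : ℕ) : (2 ^ t - 1 + 1) ^ J = 2 ^ (t * J) := by
  rw [Nat.sub_add_cancel Nat.one_le_two_pow, ← pow_mul]

/-- the advice -/
theorem exists_adv {J : ℕ} (hJ : 2 ≤ J) {l : ℕ → ℕ}
    (hlJ : ∀ c, ∃ s₀, ∀ s ≥ s₀, ∀ n ≤ c * (s + 1) ^ J, l n ≤ (s + 1) ^ (J - 1)) {P Q : ℕ → Prop} {n₀ : ℕ}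
    (hav : ∀ n ≥ n₀, Adv (2 ^ n) (l n) (fun x => LJ J 1 (fun _ => P) (2 ^ n + x))
      (fun x => Q (2 ^ n + x))) :
    ∃ W t₀, ∀ t ≥ t₀, ∃ u < 2 ^ (2 * W * 2 ^ (t * J)), ∀ y < 2 ^ 2 ^ (t * J), (dcP J W Q t u y ↔ P y) := by
  classical
  obtain ⟨s₁, hs₁⟩ := fam_ok hJ 1 (le_refl J)
  obtain ⟨Cn, hCn⟩ := nJ_le hJ 1
  obtain ⟨s₂, hs₂⟩ := hlJ Cn
  obtain ⟨Cv, hCv⟩ := vb_le hJ 1 (le_refl J)
  obtain ⟨W, hW⟩ : ∃ W, W = Cn + Cv := ⟨_, rfl⟩
  refine ⟨W, s₁ + s₂ + n₀ + 1, fun t ht => ?_⟩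
  have ht1 : t < 2 ^ t := Nat.lt_two_pow_self
  obtain ⟨s, hs⟩ : ∃ s, s = 2 ^ t - 1 := ⟨_, rfl⟩
  have hsJ : (s + 1) ^ J = 2 ^ (t * J) := by rw [hs, two_pow_sub]
  obtain ⟨n, hn⟩ : ∃ n, n = nJ J 1 s := ⟨_, rfl⟩
  obtain ⟨M, hM⟩ : ∃ M, M = (fam J 1 J s).M := ⟨_, rfl⟩
  have hM0 : 0 < M := by rw [hM]; exact M_pos J 1 J s
  have hMn : M * 2 ^ ((s + 1) ^ (J - 1) + 1) ≤ 2 ^ n := by
    have h1 := M_le J 1 J s
    rw [← hM] at h1
    calc M * 2 ^ ((s + 1) ^ (J - 1) + 1)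
        ≤ 2 ^ (fam J 1 J s).nb * 2 ^ ((s + 1) ^ (J - 1) + 1) := Nat.mul_le_mul_right _ h1
      _ = 2 ^ n := by
        rw [← pow_add, hn]
        rfl
  have hnn : n₀ ≤ n := by
    have h1 := nJ_ge hJ 1 s
    have h2 : s + 1 ≤ (s + 1) ^ J := Nat.le_self_pow (by omega) _
    omega
  have e1 : Adv (2 ^ n) ((s + 1) ^ (J - 1)) (fun x => Q (2 ^ n + x))
      (fun x => (fam J 1 J s).enc P (x % M)) := by
    refine ((hav n hnn).symm.mono (hs₂ s (by omega) n (by rw [hn]; exact hCn s))).congr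
      (fun x _ => Iff.rfl) fun x hx => ?_
    rw [hn] at hx ⊢
    rw [hM]
    exact (LJ_iff hJ 1 (fun _ => P) hx).symm
  obtain ⟨p, hp, e2⟩ := adv_pad hM0 hMn _ _ e1
  have e3 : Adv (fam J 1 J s).M (fam J 1 J s).lam
      (fun r => Q (2 ^ n + (r + M * p))) ((fam J 1 J s).enc P) := by
    rw [← hM, lam_eq]
    have : lmj J J s = (s + 1) ^ (J - 1) + 1 := by
      unfold lmj
      omega
    rw [this]
    exact e2
  have e4 := hs₁ s (by omega) _ _ e3
  have e5 : ∃ u' < (fam J 1 J s).V, ∀ y < 2 ^ (fam J 1 J s).K,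
      ((fam J 1 J s).dec (fun r => Q (2 ^ n + (r + M * p))) u' y ↔ P y) := by
    have h1 := V_pos J 1 J s
    by_contra hcon
    push Not at hcon
    rw [Finset.filter_false_of_mem, Finset.card_empty, mul_zero] at e4
    · omega
    · intro u' hu' h2
      obtain ⟨y, hy, h3⟩ := hcon u' (Finset.mem_range.mp hu')
      have h4 := h2 y hy
      tauto
  obtain ⟨u', hu', e6⟩ := e5
  rw [K_eq hJ, one_mul, hsJ] at e6
  obtain ⟨X, hX⟩ : ∃ X, X = 2 ^ (W * 2 ^ (t * J)) := ⟨_, rfl⟩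
  have hX1 : ∀ m, m ≤ W * (s + 1) ^ J → 2 ^ m ≤ X := fun m hm => by
    rw [hX, ← hsJ]
    exact Nat.pow_le_pow_right (by norm_num) hm
  have b2 : p < X := by
    refine hp.trans_le (hX1 _ (le_trans (by rw [hn]; exact hCn s) (Nat.mul_le_mul_right _ ?_)))
    omega
  have b3 : u' < X := by
    refine hu'.trans_le ((V_le J 1 J s).trans (hX1 _ ((hCv s).trans (Nat.mul_le_mul_right _ ?_))))
    omega
  have hX0 : 0 < X := by omega
  refine ⟨p + X * u', ?_, fun y hy => ?_⟩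
  · have : 2 ^ (2 * W * 2 ^ (t * J)) = X * X := by
      rw [hX, ← pow_add]
      congr 1
      ring
    rw [this]
    have d1 : X * (u' + 1) ≤ X * X := Nat.mul_le_mul_left _ b3
    rw [Nat.mul_add, mul_one] at d1
    omega
  · unfold dcP
    rw [← hs, ← hX, ← hn, ← hM, Nat.add_mul_mod_self_left, Nat.mod_eq_of_lt b2,
      Nat.add_mul_div_left _ _ hX0, Nat.div_eq_of_lt b2, zero_add]
    exact e6 y hy

section definability

variable {C : NClass} [Calc C] {α : Type} [Ctx α]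

/-- `2 ^ (τ a * J)` is linear in the length of `a` -/
def TL (J : ℕ) (τ : α → ℕ) : Prop := ∃ c, ∀ a, 2 ^ (τ a * J) ≤ c * (sz a + 1)

theorem TL.comp {β : Type} [Ctx β] {J : ℕ} {τ : β → ℕ} (h : TL J τ) {g : α → β} (hg : Fn C g) :
    TL J (fun a => τ (g a)) := by
  obtain ⟨c, hc⟩ := h
  obtain ⟨c', hc'⟩ := hg.bd
  exact ⟨c * (c' + 1), fun a => lin_trans (hc (g a)) (hc' a)⟩

theorem TL.le {J : ℕ} {τ : α → ℕ} (h : TL J τ) : ∃ c, ∀ a, τ a * J ≤ c * (sz a + 1) := by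
  obtain ⟨c, hc⟩ := h
  exact ⟨c, fun a => (Nat.lt_two_pow_self).le.trans (hc a)⟩

theorem TL.fn {J : ℕ} {τ : α → ℕ} (h : TL J τ) (hτ : Fn C τ) :
    Fn C (fun a => 2 ^ (τ a * J)) := by
  obtain ⟨c, hc⟩ := h.le
  exact Fn.pow2 (by fun_prop) c hc

theorem TL.pow {J : ℕ} {τ : α → ℕ} (h : TL J τ) (hτ : Fn C τ) (w : ℕ) :
    Fn C (fun a => 2 ^ (w * 2 ^ (τ a * J))) := by
  have h1 := h.fn hτ
  obtain ⟨c, hc⟩ := h
  exact Fn.pow2 (by fun_prop) (w * c) fun a => by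
    rw [mul_assoc]
    exact Nat.mul_le_mul_left _ (hc a)

theorem TL.s {J : ℕ} (hJ : 1 ≤ J) {τ : α → ℕ} (h : TL J τ) (hτ : Fn C τ) :
    Fn C (fun a => 2 ^ τ a - 1) ∧ Lin J (fun a => 2 ^ τ a - 1) := by
  constructor
  · obtain ⟨c, hc⟩ := h.le
    have h1 : Fn C (fun a => 2 ^ τ a) := Fn.pow2 hτ c fun a =>
      (Nat.le_mul_of_pos_right _ (by omega)).trans (hc a)
    fun_prop
  · obtain ⟨c, hc⟩ := h
    exact ⟨c, fun a => by rw [two_pow_sub]; exact hc a⟩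

theorem Pr.dcP {J : ℕ} (hJ : 2 ≤ J) (W : ℕ) {Q : ℕ → Prop} (hQ : Pr C Q) {τ u y : α → ℕ} (h : TL J τ)
    (hτ : Fn C τ) (hu : Fn C u) (hy : Fn C y) : Pr C (fun a => dcP J W Q (τ a) (u a) (y a)) := by
  have hJ1 : 1 ≤ J := by omega
  have hdfb := fam_dfb hJ 1 (le_refl J)
  obtain ⟨g1, g2⟩ := h.s hJ1 hτ
  have g3 := h.pow hτ W
  have k0 : TL J (fun q : α × ℕ => τ q.1) := h.comp (C := C) Fn.fst
  have k1 : Fn C (fun q : α × ℕ => τ q.1) := hτ.comp Fn.fst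
  obtain ⟨k2, k3⟩ := k0.s hJ1 k1
  have k4 := k0.pow k1 W
  have k5 := hdfb.M C (α × ℕ) (fun q => 2 ^ τ q.1 - 1) k2 k3
  obtain ⟨Cn, hCn⟩ := nJ_le hJ 1
  have k6 : Fn C (fun q : α × ℕ => 2 ^ nJ J 1 (2 ^ τ q.1 - 1)) := by
    obtain ⟨c, hc⟩ := k3
    refine Fn.pow2 ((fn_nJ hJ _ C).comp k2) (Cn * c) fun q => ?_
    rw [mul_assoc]
    exact (hCn _).trans (Nat.mul_le_mul_left _ (hc q))
  have k7 : Fn C (fun q : α × ℕ => u q.1) := hu.comp Fn.fst
  refine hdfb.dec C α (fun a => 2 ^ τ a - 1) (fun a => u a / 2 ^ (W * 2 ^ (τ a * J))) y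
    (fun a r => Q (2 ^ nJ J 1 (2 ^ τ a - 1) + (r + (fam J 1 J (2 ^ τ a - 1)).M *
      (u a % 2 ^ (W * 2 ^ (τ a * J)))))) g1 g2 (by fun_prop) hy ?_
  exact hQ.comp (f := fun q : α × ℕ => 2 ^ nJ J 1 (2 ^ τ q.1 - 1) + (q.2 +
    (fam J 1 J (2 ^ τ q.1 - 1)).M * (u q.1 % 2 ^ (W * 2 ^ (τ q.1 * J))))) (by fun_prop)

end definability

/-- the least advice -/
noncomputable def uD (J W : ℕ) (P Q : ℕ → Prop) (t : ℕ) : ℕ :=
  LSC.mu (2 ^ (2 * W * 2 ^ (t * J))) fun u => ∀ y < 2 ^ 2 ^ (t * J), (dcP J W Q t u y ↔ P y)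

theorem Fn.uD {D : NClass} [Calc D] {α : Type} [Ctx α] {J : ℕ} (hJ : 2 ≤ J) (W : ℕ) {P Q : ℕ → Prop}
    (hP : Pr D P) (hQ : Pr D Q) {τ : α → ℕ} (h : TL J τ) (hτ : Fn D τ) :
    Fn D (fun a => uD J W P Q (τ a)) := by
  have hJ1 : 1 ≤ J := by omega
  unfold LSA.uD
  refine Fn.mu (n := fun a => 2 ^ (2 * W * 2 ^ (τ a * J)))
    (p := fun a u => ∀ y < 2 ^ 2 ^ (τ a * J), (dcP J W Q (τ a) u y ↔ P y)) (h.pow hτ _) ?_
  have k0 : TL J (fun q : α × ℕ => τ q.1) := h.comp (C := D) Fn.fst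
  have k1 : Fn D (fun q : α × ℕ => τ q.1) := hτ.comp Fn.fst
  have k2 := k0.pow k1 1
  simp only [one_mul] at k2
  refine Pr.all (n := fun q : α × ℕ => 2 ^ 2 ^ (τ q.1 * J))
    (p := fun q y => (dcP J W Q (τ q.1) q.2 y ↔ P y)) k2 ?_
  have m0 : TL J (fun q : (α × ℕ) × ℕ => τ q.1.1) := k0.comp (C := D) Fn.fst
  have m1 : Fn D (fun q : (α × ℕ) × ℕ => τ q.1.1) := k1.comp Fn.fst
  exact (Pr.dcP hJ W hQ m0 m1 (by fun_prop) (by fun_prop)).iff
    (hP.comp (f := fun q : (α × ℕ) × ℕ => q.2) (by fun_prop))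

/-! ### The lengths -/

/-- the parameter `t` of the length `n` -/
def tn (B J n : ℕ) : ℕ := (Nat.size (n / B) - 1) / J

theorem size_eq_of {a k : ℕ} (h1 : 2 ^ k ≤ a) (h2 : a < 2 ^ (k + 1)) : Nat.size a = k + 1 := by
  have h3 := Nat.lt_size.mpr h1
  have h4 := Nat.size_le.mpr h2
  omega

theorem tn_eq {B J t i : ℕ} (hJ : 1 ≤ J) (hi : i < B * 2 ^ (t * J)) :
    tn B J (B * 2 ^ (t * J) + i) = t := by
  have hB : 0 < B := by
    rcases Nat.eq_zero_or_pos B with h | h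
    · rw [h, zero_mul] at hi
      omega
    · exact h
  have h1 : (B * 2 ^ (t * J) + i) / B = 2 ^ (t * J) + i / B := by
    rw [add_comm, Nat.add_mul_div_left _ _ hB, add_comm]
  have h2 : i / B < 2 ^ (t * J) := Nat.div_lt_of_lt_mul hi
  unfold tn
  rw [h1]
  generalize i / B = g at h2
  rw [size_eq_of (k := t * J) (by omega) (by rw [pow_succ]; omega), Nat.add_sub_cancel,
    Nat.mul_div_cancel _ (by omega)]

theorem tn_le {B J n : ℕ} : 2 ^ (tn B J n * J) ≤ n + 1 := by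
  have h1 : tn B J n * J ≤ Nat.size (n / B) - 1 := Nat.div_mul_le_self _ _
  rcases Nat.eq_zero_or_pos (Nat.size (n / B)) with h | h
  · have : tn B J n * J = 0 := by omega
    rw [this]
    omega
  · have h2 : 2 ^ (Nat.size (n / B) - 1) ≤ n / B := by
      rw [← Nat.lt_size]
      omega
    have h3 := Nat.div_le_self n B
    exact (Nat.pow_le_pow_right (by norm_num) h1).trans (h2.trans (by omega))

/-- the predicate of the lengths: the bits of the least advices -/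
def TP (J W : ℕ) (P Q : ℕ → Prop) (n : ℕ) : Prop :=
  (2 * W + 1) * 2 ^ (tn (2 * W + 1) J n * J) ≤ n ∧
    bt (uD J W P Q (tn (2 * W + 1) J n)) (n - (2 * W + 1) * 2 ^ (tn (2 * W + 1) J n * J)) = 1

theorem TP_iff {J W t i : ℕ} (hJ : 1 ≤ J) (P Q : ℕ → Prop) (hi : i < 2 * W * 2 ^ (t * J)) :
    TP J W P Q ((2 * W + 1) * 2 ^ (t * J) + i) ↔ bt (uD J W P Q t) i = 1 := by
  have h1 : tn (2 * W + 1) J ((2 * W + 1) * 2 ^ (t * J) + i) = t :=
    tn_eq hJ (hi.trans_le (Nat.mul_le_mul_right _ (by omega)))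
  unfold TP
  rw [h1, Nat.add_sub_cancel_left]
  exact and_iff_right (by omega)

theorem pr_TP {D : NClass} [Calc D] {J : ℕ} (hJ : 2 ≤ J) (W : ℕ) {P Q : ℕ → Prop}
    (hP : Pr D P) (hQ : Pr D Q) : Pr D (fun N : ℕ => TP J W P Q (Nat.size N - 1)) := by
  have hJ1 : 1 ≤ J := by omega
  have g1 : Fn D (fun N : ℕ => tn (2 * W + 1) J (Nat.size N - 1)) := by
    unfold tn
    fun_prop
  have g2 : TL J (fun N : ℕ => tn (2 * W + 1) J (Nat.size N - 1)) := ⟨1, fun N => by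
    rw [sz_nat, one_mul]
    exact tn_le.trans (by omega)⟩
  have g3 := g2.fn g1
  have g4 := Fn.uD hJ W hP hQ g2 g1
  unfold TP
  fun_prop

/-- a predicate which depends only on the length is the majority of every approximation -/
theorem maj_iff {l n : ℕ} {T : Prop} {Q : ℕ → Prop}
    (h : Adv (2 ^ n) l (fun _ => T) (fun x => Q (2 ^ n + x))) :
    T ↔ 2 ^ n < 2 * agr (2 ^ n) (fun _ => True) (fun x => Q (2 ^ n + x)) := by
  classical
  unfold Adv at h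
  have h0 : 0 < 2 ^ n := by positivity
  have h1 : 2 ^ n < 2 * agr (2 ^ n) (fun _ => T) (fun x => Q (2 ^ n + x)) := by
    by_contra hc
    push Not at hc
    rw [Nat.sub_eq_zero_of_le hc, mul_zero] at h
    omega
  by_cases hT : T
  · simp only [hT, true_iff] at h1 ⊢
    exact h1
  · simp only [hT, false_iff] at h1 ⊢
    have h2 := Finset.card_filter_add_card_filter_not (s := Finset.range (2 ^ n))
      (fun x => Q (2 ^ n + x))
    rw [Finset.card_range] at h2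
    have h3 : agr (2 ^ n) (fun _ => False) (fun x => Q (2 ^ n + x)) =
        ((Finset.range (2 ^ n)).filter fun x => ¬ Q (2 ^ n + x)).card := by
      unfold agr
      congr 1
      ext x
      simp only [Finset.mem_filter]
      tauto
    have h4 : agr (2 ^ n) (fun _ => True) (fun x => Q (2 ^ n + x)) =
        ((Finset.range (2 ^ n)).filter fun x => Q (2 ^ n + x)).card := by
      unfold agr
      congr 1
      ext x
      simp only [Finset.mem_filter]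
      tauto
    omega

theorem coreU {C D : NClass} [Calc C] [Calc D] (hCD : ∀ Q : ℕ → Prop, Pr C Q → Pr D Q) {J : ℕ}
    (hJ : 2 ≤ J) {l : ℕ → ℕ}
    (hlJ : ∀ c, ∃ s₀, ∀ s ≥ s₀, ∀ n ≤ c * (s + 1) ^ J, l n ≤ (s + 1) ^ (J - 1))
    (h : UAvg l C D) (P : ℕ → Prop) (hP : Pr D P) : Pr C P := by
  classical
  have hJ1 : 1 ≤ J := by omega
  obtain ⟨Q, n₀, hQ, hav⟩ := h (LJ J 1 (fun _ => P)) (Pr.LJ hJ 1
    (hP.comp (f := fun q : ℕ × ℕ => q.2) (by fun_prop)))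
  obtain ⟨W, t₀, hW⟩ := exists_adv hJ hlJ hav
  obtain ⟨T, n₁, hT, hav2⟩ := h _ (pr_TP hJ W hP (hCD Q hQ))
  -- the bits
  have hbit : ∀ t i, n₁ ≤ t → i < 2 * W * 2 ^ (t * J) →
      (bt (uD J W P Q t) i = 1 ↔ 2 ^ ((2 * W + 1) * 2 ^ (t * J) + i) <
        2 * agr (2 ^ ((2 * W + 1) * 2 ^ (t * J) + i)) (fun _ => True)
          (fun x => T (2 ^ ((2 * W + 1) * 2 ^ (t * J) + i) + x))) := by
    intro t i ht hi
    obtain ⟨n, hn⟩ : ∃ n, n = (2 * W + 1) * 2 ^ (t * J) + i := ⟨_, rfl⟩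
    have h1 : t < 2 ^ (t * J) := (Nat.le_mul_of_pos_right t (by omega)).trans_lt Nat.lt_two_pow_self
    have h2 : 2 ^ (t * J) ≤ (2 * W + 1) * 2 ^ (t * J) := Nat.le_mul_of_pos_left _ (by omega)
    rw [← TP_iff hJ1 P Q hi, ← hn]
    refine maj_iff (l := l n) ?_
    refine (hav2 n (by omega)).congr (fun x hx => ?_) fun x _ => Iff.rfl
    rw [size_two_pow_add hx, Nat.add_sub_cancel]
  -- the parameter of a number
  obtain ⟨τ, hτ⟩ : ∃ τ : ℕ → ℕ, ∀ a, τ a = (Nat.size (Nat.size a) + J - 1) / J := ⟨_, fun _ => rfl⟩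
  have f1 : Fn C τ := by
    have : Fn C (fun a : ℕ => (Nat.size (Nat.size a) + J - 1) / J) := by fun_prop
    exact this.congr hτ
  have hτ1 : ∀ a, Nat.size (Nat.size a) ≤ τ a * J := by
    intro a
    rw [hτ]
    have h1 := Nat.div_add_mod (Nat.size (Nat.size a) + J - 1) J
    have h2 := Nat.mod_lt (Nat.size (Nat.size a) + J - 1) (by omega : 0 < J)
    rw [mul_comm] at h1
    omega
  have hτ2 : ∀ a, a < 2 ^ 2 ^ (τ a * J) := by
    intro a
    refine (Nat.lt_size_self a).trans_le (Nat.pow_le_pow_right (by norm_num) ?_)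
    exact (Nat.lt_size_self _).le.trans (Nat.pow_le_pow_right (by norm_num) (hτ1 a))
  have f2 : TL J τ := by
    refine ⟨2 ^ J * 2, fun a => ?_⟩
    have h1 : τ a * J ≤ Nat.size (Nat.size a) + J := by
      rw [hτ]
      exact (Nat.div_mul_le_self _ _).trans (by omega)
    have h2 : 2 ^ Nat.size (Nat.size a) ≤ 2 * (Nat.size a + 1) := by
      by_cases h : Nat.size a = 0
      · rw [h]; simp
      · have := pow_size_le h
        omega
    rw [sz_nat]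
    calc 2 ^ (τ a * J) ≤ 2 ^ (Nat.size (Nat.size a) + J) := Nat.pow_le_pow_right (by norm_num) h1
      _ = 2 ^ J * 2 ^ Nat.size (Nat.size a) := by rw [pow_add, mul_comm]
      _ ≤ 2 ^ J * (2 * (Nat.size a + 1)) := Nat.mul_le_mul_left _ h2
      _ = 2 ^ J * 2 * (Nat.size a + 1) := by ring
  have f3 := f2.fn f1
  -- the least advice is in `C`
  obtain ⟨v, hv⟩ : ∃ v : ℕ → ℕ, ∀ a, v a = ofBits (2 * W * 2 ^ (τ a * J)) (fun i =>
      2 ^ ((2 * W + 1) * 2 ^ (τ a * J) + min i (2 * W * 2 ^ (τ a * J))) <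
        2 * agr (2 ^ ((2 * W + 1) * 2 ^ (τ a * J) + min i (2 * W * 2 ^ (τ a * J)))) (fun _ => True)
          (fun x => T (2 ^ ((2 * W + 1) * 2 ^ (τ a * J) + min i (2 * W * 2 ^ (τ a * J))) + x))) :=
    ⟨_, fun _ => rfl⟩
  have f4 : Fn C v := by
    obtain ⟨c, hc⟩ := id f2
    have g1 : Fn C (fun a => 2 * W * 2 ^ (τ a * J)) := by fun_prop
    have g2 : Fn C (fun q : ℕ × ℕ => 2 ^ (τ q.1 * J)) := f3.comp Fn.fst
    have g3 : Fn C (fun q : ℕ × ℕ => 2 ^ ((2 * W + 1) * 2 ^ (τ q.1 * J) +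
        min q.2 (2 * W * 2 ^ (τ q.1 * J)))) := by
      refine Fn.pow2 (by fun_prop) ((4 * W + 1) * c) fun q => ?_
      have h1 : min q.2 (2 * W * 2 ^ (τ q.1 * J)) ≤ 2 * W * 2 ^ (τ q.1 * J) := min_le_right _ _
      have h2 := hc q.1
      have h3 : sz q = sz q.1 + sz q.2 := sz_prod q.1 q.2
      calc (2 * W + 1) * 2 ^ (τ q.1 * J) + min q.2 (2 * W * 2 ^ (τ q.1 * J))
          ≤ (4 * W + 1) * 2 ^ (τ q.1 * J) := by
            have : (4 * W + 1) * 2 ^ (τ q.1 * J) =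
              (2 * W + 1) * 2 ^ (τ q.1 * J) + 2 * W * 2 ^ (τ q.1 * J) := by ring
            omega
        _ ≤ (4 * W + 1) * (c * (sz q.1 + 1)) := Nat.mul_le_mul_left _ h2
        _ = (4 * W + 1) * c * (sz q.1 + 1) := by ring
        _ ≤ (4 * W + 1) * c * (sz q + 1) := Nat.mul_le_mul_left _ (by omega)
    have g4 : Fn C (fun q : (ℕ × ℕ) × ℕ => 2 ^ ((2 * W + 1) * 2 ^ (τ q.1.1 * J) +
        min q.1.2 (2 * W * 2 ^ (τ q.1.1 * J)))) := g3.comp (f := fun q : (ℕ × ℕ) × ℕ => q.1) Fn.fst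
    have g5 : Fn C (fun q : ℕ × ℕ => agr (2 ^ ((2 * W + 1) * 2 ^ (τ q.1 * J) +
        min q.2 (2 * W * 2 ^ (τ q.1 * J)))) (fun _ => True)
          (fun x => T (2 ^ ((2 * W + 1) * 2 ^ (τ q.1 * J) + min q.2 (2 * W * 2 ^ (τ q.1 * J))) + x))) := by
      have g6 := Fn.count (n := fun q : ℕ × ℕ => 2 ^ ((2 * W + 1) * 2 ^ (τ q.1 * J) +
        min q.2 (2 * W * 2 ^ (τ q.1 * J)))) (p := fun q x => True ↔
          T (2 ^ ((2 * W + 1) * 2 ^ (τ q.1 * J) + min q.2 (2 * W * 2 ^ (τ q.1 * J))) + x)) g3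
        ((Pr.const True).iff (hT.comp (f := fun q : (ℕ × ℕ) × ℕ =>
        2 ^ ((2 * W + 1) * 2 ^ (τ q.1.1 * J) + min q.1.2 (2 * W * 2 ^ (τ q.1.1 * J))) + q.2)
          (by fun_prop)))
      refine g6.congr fun q => ?_
      unfold agr
      congr 1
      ext x
      simp only [Finset.mem_filter]
    refine (Fn.ofBits (V := fun a => 2 * W * 2 ^ (τ a * J)) (c := 2 * W * c) g1 (fun a => ?_) ?_).congr hv
    · calc 2 * W * 2 ^ (τ a * J) ≤ 2 * W * (c * (sz a + 1)) := Nat.mul_le_mul_left _ (hc a)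
        _ = 2 * W * c * (sz a + 1) := by ring
    · fun_prop
  -- the least advice is correct
  have hmu : ∀ t ≥ t₀, uD J W P Q t < 2 ^ (2 * W * 2 ^ (t * J)) ∧
      ∀ y < 2 ^ 2 ^ (t * J), (dcP J W Q t (uD J W P Q t) y ↔ P y) := by
    intro t ht
    obtain ⟨u, hu, hu2⟩ := hW t ht
    have h1 : uD J W P Q t < 2 ^ (2 * W * 2 ^ (t * J)) := by
      by_contra hc
      push Not at hc
      exact mu_min (n := 2 ^ (2 * W * 2 ^ (t * J)))
        (p := fun u => ∀ y < 2 ^ 2 ^ (t * J), (dcP J W Q t u y ↔ P y)) (hu.trans_le hc) hu2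
    exact ⟨h1, mu_spec h1⟩
  obtain ⟨t₂, ht₂⟩ : ∃ t₂, t₂ = max t₀ n₁ := ⟨_, rfl⟩
  have key : ∀ a, P a ↔ (τ a < t₂ ∧ ∃ i : Fin (2 ^ 2 ^ (t₂ * J)), P i ∧ a = i) ∨
      (t₂ ≤ τ a ∧ dcP J W Q (τ a) (v a) a) := by
    intro a
    have hva : t₂ ≤ τ a → (dcP J W Q (τ a) (v a) a ↔ P a) := by
      intro ha
      obtain ⟨h1, h2⟩ := hmu (τ a) (by omega)
      have h3 : v a = uD J W P Q (τ a) := by
        rw [hv, ← ofBits_bt _ _ h1]
        refine ofBits_congr fun i hi => ?_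
        rw [hbit (τ a) i (by omega) hi, min_eq_left hi.le]
      rw [h3]
      exact h2 a (hτ2 a)
    rcases Nat.lt_or_ge (τ a) t₂ with h3 | h3
    · constructor
      · intro hPa
        refine Or.inl ⟨h3, ⟨a, (hτ2 a).trans_le ?_⟩, hPa, rfl⟩
        exact Nat.pow_le_pow_right (by norm_num)
          (Nat.pow_le_pow_right (by norm_num) (Nat.mul_le_mul_right _ h3.le))
      · rintro (⟨-, i, hi, rfl⟩ | ⟨h4, -⟩)
        · exact hi
        · omega
    · constructor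
      · intro hPa
        exact Or.inr ⟨h3, (hva h3).2 hPa⟩
      · rintro (⟨h4, -⟩ | ⟨-, h4⟩)
        · omega
        · exact (hva h3).1 h4
  refine Pr.congr ?_ key
  refine Pr.or (Pr.and (Pr.lt f1 (by fun_prop)) ?_) (Pr.and (Pr.le (by fun_prop) f1) ?_)
  · exact Pr_finex fun i => (Pr.const _).and (by fun_prop)
  · exact Pr.dcP hJ W hQ f2 f1 f4 (by fun_prop)

end LSA
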