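import Pool.Agent.H85L.Defs

/-!
# Linear space relative to a class of languages
-/

set_option autoImplicit false

namespace NEA73

/-- the number with the binary digits `w`, lowest digit first, and a leading digit `1` -/
def num (w : List Bool) : ℕ := w.foldr (fun b m => 2 * m + b.toNat) 1

open Classical in
/-- The functions of several numbers computed in linear space relative to the languages of the class
`X`: the smallest class which contains the characteristic functions of the languages of `X` (the word
`w` is the number `num w`), the projections, zero and the successor and is closed under composition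
and under simultaneous recursion with values of linear length (`Nat.size` is the number of binary
digits). -/
inductive LinSpace (X : Set (List Bool) → Prop) : (k : ℕ) → ((Fin k → ℕ) → ℕ) → Prop
  | char (L : Set (List Bool)) : X L →
      LinSpace X 1 fun a => if ∃ w ∈ L, num w = a 0 then 1 else 0
  | proj (k : ℕ) (i : Fin k) : LinSpace X k fun a => a i
  | zero : LinSpace X 0 fun _ => 0
  | succ : LinSpace X 1 fun a => a 0 + 1
  | comp (k m : ℕ) (f : (Fin m → ℕ) → ℕ) (g : Fin m → (Fin k → ℕ) → ℕ) : LinSpace X m f →
      (∀ i, LinSpace X k (g i)) → LinSpace X k fun a => f fun i => g i a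
  | recn (k m c : ℕ) (f : (Fin k → ℕ) → ℕ → Fin m → ℕ) (g : Fin m → (Fin k → ℕ) → ℕ)
      (h : Fin m → (Fin (k + 1 + m) → ℕ) → ℕ) : (∀ j, LinSpace X k (g j)) →
      (∀ j, LinSpace X (k + 1 + m) (h j)) →
      (∀ a j, f a 0 j = g j a) →
      (∀ a i j, f a (i + 1) j = h j (Fin.append (Fin.append a fun _ : Fin 1 => i) (f a i))) →
      (∀ a i j, Nat.size (f a i j) ≤ c * ((∑ l, Nat.size (a l)) + Nat.size i + 1)) →
      ∀ j, LinSpace X (k + 1) fun a => f (fun i => a (Fin.castSucc i)) (a (Fin.last k)) j

/-- the languages of binary words decided in linear space relative to the languages of `X` -/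
def InLinSpace (X : Set (List Bool) → Prop) (L : Set (List Bool)) : Prop :=
  ∃ f, LinSpace X 1 f ∧ ∀ w, w ∈ L ↔ f (fun _ => num w) = 1

end NEA73
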