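import Pool.Agent.NEA73.Defs
import Pool.Agent.NEA73.Core
import Pool.Agent.H85B.Near

/-!
# Linear space relative to a class of languages: closure properties
-/

set_option autoImplicit false

namespace NEA73

open H85L LSP LSC LSA

/-! ### Words and numbers -/

theorem num_nil : num [] = 1 := rfl

theorem num_cons (b : Bool) (w : List Bool) : num (b :: w) = 2 * num w + b.toNat := rfl

theorem num_pos (w : List Bool) : 0 < num w := by
  induction w with
  | nil => exact Nat.one_pos
  | cons b w ih =>
    rw [num_cons]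
    omega

theorem num_inj : Function.Injective num := by
  intro w
  induction w with
  | nil =>
    intro v h
    cases v with
    | nil => rfl
    | cons b v =>
      rw [num_nil, num_cons] at h
      have := num_pos v
      omega
  | cons b w ih =>
    intro v h
    cases v with
    | nil =>
      rw [num_nil, num_cons] at h
      have := num_pos w
      omega
    | cons c v =>
      rw [num_cons, num_cons] at h
      have h1 : b.toNat < 2 := Bool.toNat_lt b
      have h2 : c.toNat < 2 := Bool.toNat_lt c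
      have h3 : num w = num v := by omega
      have h4 : b.toNat = c.toNat := by omega
      have h5 : b = c := by
        cases b <;> cases c <;> simp_all
      rw [ih h3, h5]

theorem nb_cons (b : Bool) (w : List Bool) : nb (b :: w) = 2 * nb w + b.toNat := by
  classical
  unfold nb ofBits
  rw [List.length_cons, Finset.sum_range_succ', Finset.mul_sum]
  congr 1
  · refine Finset.sum_congr rfl fun i _ => ?_
    simp only [List.getElem?_cons_succ]
    rw [pow_succ]
    ring
  · simp only [List.getElem?_cons_zero, Option.some.injEq, pow_zero, mul_one]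
    cases b <;> simp

theorem nw_eq (w : List Bool) : nw w = num w := by
  induction w with
  | nil =>
    unfold nw nb ofBits
    simp [num_nil]
  | cons b w ih =>
    rw [num_cons, ← ih]
    unfold nw
    rw [nb_cons, List.length_cons, pow_succ]
    ring

/-- the word of a positive number -/
theorem nw_word {N : ℕ} (hN : N ≠ 0) :
    nw (List.ofFn fun i : Fin (Nat.size N - 1) => decide (bt N i = 1)) = N := by
  obtain ⟨n, hn⟩ : ∃ n, Nat.size N = n + 1 := ⟨Nat.size N - 1, by
    have : 0 < Nat.size N := Nat.size_pos.mpr (Nat.pos_of_ne_zero hN)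
    omega⟩
  have h1 : 2 ^ n ≤ N := Nat.lt_size.mp (by omega)
  have h2 : N < 2 ^ (n + 1) := Nat.size_le.mp hn.le
  obtain ⟨x, rfl⟩ : ∃ x, N = 2 ^ n + x := ⟨N - 2 ^ n, by omega⟩
  have hx : x < 2 ^ n := by
    rw [pow_succ] at h2
    omega
  have h3 : (fun i : Fin (Nat.size (2 ^ n + x) - 1) => decide (bt (2 ^ n + x) i = 1)) =
      fun i : Fin (Nat.size (2 ^ n + x) - 1) => decide (bt x i = 1) := by
    funext i
    rw [bt_add (n := n) (by
      have := i.2
      omega)]
  rw [h3, hn]
  show nw (List.ofFn fun i : Fin n => decide (bt x i = 1)) = _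
  unfold nw
  rw [nb_bits n x hx, List.length_ofFn]

/-! ### The class -/

/-- the class of the functions computed in linear space relative to the languages of `X` -/
def LS (X : Set (List Bool) → Prop) : NClass := ⟨LinSpace X⟩

theorem linSpace_bd {X : Set (List Bool) → Prop} {k : ℕ} {f : (Fin k → ℕ) → ℕ} (h : LinSpace X k f) :
    ∃ c, ∀ a, Nat.size (f a) ≤ c * (tsz a + 1) := by
  induction h with
  | char L _ =>
    refine ⟨1, fun a => ?_⟩
    dsimp only
    split_ifs
    · simp
    · simp
  | proj k i => exact ⟨1, fun a => by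
      have := comp_le_tsz a i
      show Nat.size (a i) ≤ _
      omega⟩
  | zero => exact ⟨0, fun a => by simp⟩
  | succ => exact ⟨1, fun a => by
      have h1 := comp_le_tsz a 0
      have h2 := LSC.size_succ_le (a 0)
      show Nat.size (a 0 + 1) ≤ _
      omega⟩
  | comp k m f g _ _ ihf ihg =>
    obtain ⟨c, hc⟩ := ihf
    choose d hd using ihg
    refine ⟨c * (m * (∑ j, d j) + 1), fun a => ?_⟩
    have h1 : tsz (fun i => g i a) ≤ m * ((∑ j, d j) * (tsz a + 1)) :=
      tsz_le _ fun i => (hd i a).trans (Nat.mul_le_mul_right _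
        (Finset.single_le_sum (f := d) (fun _ _ => Nat.zero_le _) (Finset.mem_univ i)))
    refine (hc _).trans ?_
    calc c * (tsz (fun i => g i a) + 1) ≤ c * (m * ((∑ j, d j) * (tsz a + 1)) + (tsz a + 1)) :=
          Nat.mul_le_mul_left _ (by omega)
      _ = c * (m * (∑ j, d j) + 1) * (tsz a + 1) := by ring
  | recn k m c f g h _ _ _ _ hb _ _ j =>
    refine ⟨c, fun a => (hb _ _ _).trans (Nat.mul_le_mul_left _ ?_)⟩
    have : tsz a = (∑ l : Fin k, Nat.size (a (Fin.castSucc l))) + Nat.size (a (Fin.last k)) := by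
      unfold tsz
      rw [Fin.sum_univ_castSucc]
    rw [this]

instance (X : Set (List Bool) → Prop) : Calc (LS X) where
  proj k i := LinSpace.proj k i
  zero := LinSpace.zero
  succ := LinSpace.succ
  comp k m f g hf hg := LinSpace.comp k m f g hf hg
  recn k m f g h hg hh h0 h1 hb j := by
    obtain ⟨c, hc⟩ := hb
    exact LinSpace.recn k m c f g h hg hh h0 h1 hc j
  bd k f hf := linSpace_bd hf

theorem fn_nat {C : NClass} {F : ℕ → ℕ} : Fn C F ↔ C.mem 1 fun a => F (a 0) :=
  ⟨fun h => h 0, fun h _ => h⟩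

/-- the class is the smallest one -/
theorem LinSpace.mem {X : Set (List Bool) → Prop} {C : NClass} [Calc C]
    (hX : ∀ L, X L → Pr C (fun N => ∃ w ∈ L, num w = N)) {k : ℕ} {f : (Fin k → ℕ) → ℕ}
    (h : LinSpace X k f) : C.mem k f := by
  classical
  induction h with
  | char L hL =>
    have h1 := fn_nat.mp (pr_iff.mp (hX L hL))
    convert h1 using 1
  | proj k i => exact Calc.proj k i
  | zero => exact Calc.zero
  | succ => exact Calc.succ
  | comp k m f g _ _ ihf ihg => exact Calc.comp k m f g ihf ihg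
  | recn k m c f g h _ _ h0 h1 hb j ihg ihh =>
    exact Calc.recn k m f g h ihg ihh h0 h1 ⟨c, hb⟩ j

theorem pr_char {X : Set (List Bool) → Prop} {L : Set (List Bool)} (hL : X L) :
    Pr (LS X) (fun N => ∃ w ∈ L, num w = N) := by
  classical
  rw [pr_iff, fn_nat]
  have h := LinSpace.char (X := X) L hL
  show LinSpace X 1 _
  convert h using 1

/-- the languages of the class -/
theorem inLinSpace_iff {X : Set (List Bool) → Prop} {L : Set (List Bool)} :
    InLinSpace X L ↔ ∃ P : ℕ → Prop, Pr (LS X) P ∧ ∀ w, w ∈ L ↔ P (num w) := by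
  classical
  constructor
  · rintro ⟨f, hf, h⟩
    refine ⟨fun N => f (fun _ => N) = 1, ?_, h⟩
    have h1 : Fn (LS X) (fun N : ℕ => f fun _ => N) := fn_nat.mpr (by
      have h2 : (fun a : Fin 1 → ℕ => f fun _ => a 0) = f := by
        funext a
        congr 1
        funext i
        rw [Subsingleton.elim i 0]
      show LinSpace X 1 _
      rw [h2]
      exact hf)
    exact Pr.eq h1 (Fn.const 1)
  · rintro ⟨P, hP, h⟩
    refine ⟨fun a => if P (a 0) then 1 else 0, fn_nat.mp (pr_iff.mp hP), fun w => ?_⟩
    rw [h]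
    show _ ↔ (if P (num w) then 1 else 0) = 1
    split_ifs with h1
    · simp [h1]
    · simp [h1]

/-- the numbers of the words of a language -/
theorem pr_num_of {C : NClass} [Calc C] {κ : Kind} (hC : ∀ (Δ : Type) (_ : Finite Δ) (L : Set (List Δ)),
    LinClass κ L → Pr C (fun X : ℕ => (dec X : List Δ) ∈ L)) {L : Set (List Bool)}
    (hL : LinClass κ L) : Pr C (fun N => ∃ w ∈ L, num w = N) := by
  have h1 : LinClass κ {w : List (Bool × (Fin 0 → Bool)) | w.map Prod.fst ∈ L} := lin_map _ hL
  have h2 : Fn C (fun N : ℕ => st (w2 0 N 0)) :=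
    (fn_w2 (C := C) 0).comp (f := fun N : ℕ => (N, 0)) (by fun_prop)
  have h3 : Pr C (fun N : ℕ => (dec (st (w2 0 N 0)) : List (Bool × (Fin 0 → Bool))) ∈
      {w : List (Bool × (Fin 0 → Bool)) | w.map Prod.fst ∈ L}) := (hC _ inferInstance _ h1).comp h2
  have h4 : Pr C (fun N : ℕ => N ≠ 0) := by fun_prop
  refine (h4.and h3).congr fun N => ?_
  rw [dec_st]
  have e1 : (w2 0 N 0).map Prod.fst =
      List.ofFn fun i : Fin (Nat.size N - 1) => decide (bt N i = 1) := by
    unfold w2 lt2
    rw [List.map_ofFn]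
    rfl
  show (∃ w ∈ L, num w = N) ↔ N ≠ 0 ∧ (w2 0 N 0).map Prod.fst ∈ L
  rw [e1]
  constructor
  · rintro ⟨w, hw, rfl⟩
    refine ⟨(num_pos w).ne', ?_⟩
    have h5 := nw_word (num_pos w).ne'
    rw [nw_eq] at h5
    rw [num_inj h5]
    exact hw
  · rintro ⟨hN, hw⟩
    refine ⟨_, hw, ?_⟩
    rw [← nw_eq, nw_word hN]

/-- the numbers of the words of a language of `DLBA`, `LBA`, `E` -/
theorem pr_num {κ : Kind} (h : κ.det = true ∨ κ.time = false) {L : Set (List Bool)}
    (hL : LinClass κ L) : Pr (KC κ) (fun N => ∃ w ∈ L, num w = N) :=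
  pr_num_of (fun _ _ _ h' => lin_pr h h') hL

/-- the predicates of `Y` are decided in linear space relative to `X` if `Y` is `DLBA` or contained in
`X` -/
theorem pr_sub {κ : Kind} {X : Set (List Bool) → Prop}
    (hX : (κ.det = true ∧ κ.time = false) ∨ ∀ L, LinClass κ L → X L)
    {Q : ℕ → Prop} (hQ : Pr (KC κ) Q) : Pr (LS X) Q := by
  have h1 : LinClass κ {w | Q (num w)} := by
    have := lin_nw hQ
    simp only [nw_eq] at this
    exact this
  have h2 : Pr (LS X) (fun N => ∃ w ∈ {w | Q (num w)}, num w = N) := by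
    rcases hX with ⟨hd, ht⟩ | hX
    · exact pr_num_of (fun _ _ _ h' => lin_det hd ht h') h1
    · exact pr_char (hX _ h1)
  have h3 : Pr (LS X) (fun N : ℕ => N = 0 ∧ Q 0) := by
    have := Pr.const (C := LS X) (α := ℕ) (Q 0)
    fun_prop
  refine (h3.or h2).congr fun N => ?_
  constructor
  · intro h
    rcases Nat.eq_zero_or_pos N with h0 | h0
    · subst h0
      exact Or.inl ⟨rfl, h⟩
    · refine Or.inr ⟨_, ?_, (nw_eq _).symm.trans (nw_word h0.ne')⟩
      show Q (num _)
      rw [← nw_eq, nw_word h0.ne']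
      exact h
  · rintro (⟨rfl, h⟩ | ⟨w, hw, rfl⟩)
    · exact h
    · exact hw

/-- languages given by predicates -/
theorem lin_num {κ : Kind} {P : ℕ → Prop} (hP : Pr (KC κ) P) : LinClass κ {w | P (num w)} := by
  have := lin_nw hP
  simp only [nw_eq] at this
  exact this

end NEA73
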