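import Pool.Agent.NEA73.Lin

/-!
# The theorem
-/

set_option autoImplicit false

namespace NEA73

open H85L LSP LSC LSA

theorem main (κ : Kind) (h : κ.det = true ∨ κ.time = false) (η : ℝ) (h0 : 0 < η) (h1 : η < 1)
    (X : Set (List Bool) → Prop)
    (hX : (κ.det = true ∧ κ.time = false) ∨ ∀ L, LinClass κ L → X L) :
    (∀ L, X L → LinClass κ L) ↔ ∀ L, InLinSpace X L →
      ∃ (R : Set (List Bool)) (n0 : ℕ), LinClass κ R ∧ ∀ n ≥ n0,
        (1 / 2 + (2 : ℝ) ^ (-(n : ℝ) ^ (1 - η))) * 2 ^ n ≤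
          ({w : Fin n → Bool | List.ofFn w ∈ L ↔ List.ofFn w ∈ R}.ncard : ℝ) := by
  classical
  obtain ⟨ε, hε⟩ : ∃ ε : ℕ → ℝ, ∀ n, ε n = (2 : ℝ) ^ (-(n : ℝ) ^ (1 - η)) := ⟨_, fun _ => rfl⟩
  simp only [← hε]
  have hεpos : ∀ n, 0 < ε n := fun n => by
    rw [hε]
    positivity
  have hε1 : ∀ n, n ≠ 0 → ε n ≤ 1 / 2 := fun n hn => by
    have e1 : (1 : ℝ) ≤ (n : ℝ) := by exact_mod_cast Nat.one_le_iff_ne_zero.mpr hn
    have e2 : (1 : ℝ) ≤ (n : ℝ) ^ (1 - η) := Real.one_le_rpow e1 (by linarith)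
    rw [hε]
    calc (2 : ℝ) ^ (-(n : ℝ) ^ (1 - η)) ≤ (2 : ℝ) ^ (-1 : ℝ) :=
          Real.rpow_le_rpow_of_exponent_le (by norm_num) (by linarith)
      _ = 1 / 2 := by
        rw [Real.rpow_neg_one]
        norm_num
  have hεl : ∀ n : ℕ, 1 ≤ (2 : ℝ) ^ ⌈(n : ℝ) ^ (1 - η)⌉₊ * ε n := fun n => by
    rw [hε, ← Real.rpow_natCast, ← Real.rpow_add (by norm_num)]
    refine Real.one_le_rpow (by norm_num) ?_
    have := Nat.le_ceil ((n : ℝ) ^ (1 - η))
    linarith
  constructor
  · intro hXY L hL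
    obtain ⟨f, hf, hfL⟩ := hL
    have hm : (KC κ).mem 1 f := LinSpace.mem (fun L hL => pr_num h (hXY L hL)) hf
    have hP : Pr (KC κ) (fun N : ℕ => f (fun _ => N) = 1) := by
      have h2 : Fn (KC κ) (fun N : ℕ => f fun _ => N) := fn_nat.mpr (by
        have h3 : (fun a : Fin 1 → ℕ => f fun _ => a 0) = f := by
          funext a
          congr 1
          funext i
          rw [Subsingleton.elim i 0]
        rw [h3]
        exact hm)
      exact Pr.eq h2 (Fn.const 1)
    refine ⟨L, 1, ?_, fun n hn => ?_⟩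
    · have h2 := lin_num hP
      have h3 : {w | f (fun _ => num w) = 1} = L := by
        ext w
        exact (hfL w).symm
      rwa [h3] at h2
    · have h2 : {w : Fin n → Bool | List.ofFn w ∈ L ↔ List.ofFn w ∈ L}.ncard = 2 ^ n := by
        have h3 := ncard_agree (fun w : Fin n → Bool => (List.ofFn w ∈ L ↔ List.ofFn w ∈ L))
        have h4 : {w : Fin n → Bool | ¬ (List.ofFn w ∈ L ↔ List.ofFn w ∈ L)} = ∅ := by
          rw [Set.eq_empty_iff_forall_notMem]
          intro w hw
          exact hw Iff.rfl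
        rw [h4, Set.ncard_empty, add_zero] at h3
        exact h3
      rw [h2]
      push_cast
      have h3 := hε1 n (by omega)
      have h4 : (0 : ℝ) < 2 ^ n := by positivity
      nlinarith
  · intro hA L hL
    obtain ⟨m, hm⟩ := exists_nat_gt (1 / η)
    have hm2 : 1 < ((m + 2 : ℕ) : ℝ) * η := by
      have h3 := (div_lt_iff₀ h0).mp hm
      push_cast
      nlinarith
    have hU : UAvg (fun n => ⌈(n : ℝ) ^ (1 - η)⌉₊) (KC κ) (LS X) := by
      intro P hP
      obtain ⟨R, n0, hR, hg⟩ := hA {w | P (num w)} (inLinSpace_iff.mpr ⟨P, hP, fun w => Iff.rfl⟩)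
      refine ⟨fun N => ∃ w ∈ R, num w = N, n0, pr_num h hR, fun n hn => ?_⟩
      have h2 := hg n hn
      obtain ⟨a, ha⟩ : ∃ a, a = ((Finset.range (2 ^ n)).filter fun x =>
        P (2 ^ n + x) ↔ ∃ w ∈ R, num w = 2 ^ n + x).card := ⟨_, rfl⟩
      have h4 : {w : Fin n → Bool | List.ofFn w ∈ {w | P (num w)} ↔ List.ofFn w ∈ R}.ncard ≤ a := by
        rw [ha, ← Set.ncard_coe_finset]
        refine Set.ncard_le_ncard_of_injOn (fun w => nb (List.ofFn w)) ?_ ?_ (Finset.finite_toSet _)
        · intro w hw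
          have hlt : nb (List.ofFn w) < 2 ^ n := by
            have := ofBits_lt (List.ofFn w).length fun j => (List.ofFn w)[j]? = some true
            rw [List.length_ofFn] at this
            unfold nb
            rw [List.length_ofFn]
            exact this
          have e1 : num (List.ofFn w) = 2 ^ n + nb (List.ofFn w) := by
            rw [← nw_eq]
            unfold nw
            rw [List.length_ofFn]
          rw [Finset.mem_coe, Finset.mem_filter, Finset.mem_range]
          refine ⟨hlt, ?_⟩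
          show P (2 ^ n + nb (List.ofFn w)) ↔ ∃ v ∈ R, num v = 2 ^ n + nb (List.ofFn w)
          rw [← e1]
          have hw' : P (num (List.ofFn w)) ↔ List.ofFn w ∈ R := hw
          rw [hw']
          constructor
          · intro h5
            exact ⟨_, h5, rfl⟩
          · rintro ⟨v, hv, hvw⟩
            rw [← num_inj hvw]
            exact hv
        · intro w _ v _ hwv
          have e1 : num (List.ofFn w) = num (List.ofFn v) := by
            rw [← nw_eq, ← nw_eq]
            unfold nw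
            rw [List.length_ofFn, List.length_ofFn]
            congr 1
          exact List.ofFn_injective (num_inj e1)
      have key : 2 ^ n ≤ 2 ^ ⌈(n : ℝ) ^ (1 - η)⌉₊ * (2 * a - 2 ^ n) := by
        have h5 : (1 / 2 + ε n) * 2 ^ n ≤ (a : ℝ) := h2.trans (by exact_mod_cast h4)
        have h7 : (0 : ℝ) < 2 ^ n := by positivity
        have h8 : (2 : ℝ) ^ n ≤ 2 * a := by
          have := mul_pos (hεpos n) h7
          nlinarith
        have h9 : 2 ^ n ≤ 2 * a := by exact_mod_cast h8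
        have h10 : ((2 * a - 2 ^ n : ℕ) : ℝ) = 2 * a - 2 ^ n := by
          rw [Nat.cast_sub h9]
          push_cast
          ring
        have h11 : 2 * ε n * 2 ^ n ≤ 2 * a - 2 ^ n := by linarith
        have h12 : (2 : ℝ) ^ n ≤ 2 ^ ⌈(n : ℝ) ^ (1 - η)⌉₊ * (2 * a - 2 ^ n) := by
          calc (2 : ℝ) ^ n = 1 * 2 ^ n := (one_mul _).symm
            _ ≤ (2 ^ ⌈(n : ℝ) ^ (1 - η)⌉₊ * ε n) * 2 ^ n :=
              mul_le_mul_of_nonneg_right (hεl n) h7.le
            _ ≤ 2 ^ ⌈(n : ℝ) ^ (1 - η)⌉₊ * (2 * ε n * 2 ^ n) := by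
              have : (0 : ℝ) < 2 ^ ⌈(n : ℝ) ^ (1 - η)⌉₊ := by positivity
              have := mul_pos (mul_pos this (hεpos n)) h7
              nlinarith
            _ ≤ 2 ^ ⌈(n : ℝ) ^ (1 - η)⌉₊ * (2 * a - 2 ^ n) :=
              mul_le_mul_of_nonneg_left h11 (by positivity)
        rw [← h10] at h12
        exact_mod_cast h12
      unfold Adv agr
      convert key
      rw [ha]
    have hP := coreU (C := KC κ) (D := LS X) (fun Q hQ => pr_sub hX hQ) (J := m + 2) (by omega)
      (fun c => ceil_rpow_le h1 (by omega) hm2 c) hU _ (pr_char hL)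
    have h2 := lin_num hP
    have h3 : {w : List Bool | ∃ v ∈ L, num v = num w} = L := by
      ext w
      constructor
      · rintro ⟨v, hv, hvw⟩
        rw [← num_inj hvw]
        exact hv
      · intro hw
        exact ⟨w, hw, rfl⟩
    rwa [h3] at h2

end NEA73
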